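import Pool.Agent.Helper23.MV.StL

/-!
# Project MV, module KER
-/

set_option autoImplicit false

namespace Pool.Agent.Helper74.MV

open Pool.Agent.Helper23.MV
open Finset ArithmeticFunction

private lemma ker_tent (Y₀ Y₁ l : ℝ) (hY : 0 < Y₁) :
    max 0 (2 * (1 - |l - Y₀| / Y₁)) =
      2 / Y₁ * (max 0 (Y₀ + Y₁ - l) - 2 * max 0 (Y₀ - l) + max 0 (Y₀ - Y₁ - l)) := by
  have h1 : 2 * (1 - |l - Y₀| / Y₁) = 2 / Y₁ * (Y₁ - |l - Y₀|) := by
    field_simp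
  have h2 : max 0 (2 / Y₁ * (Y₁ - |l - Y₀|)) = 2 / Y₁ * max 0 (Y₁ - |l - Y₀|) := by
    rw [mul_max_of_nonneg _ _ (by positivity), mul_zero]
  rw [h1, h2]
  congr 1
  rcases le_total l Y₀ with h | h
  · rw [abs_of_nonpos (by linarith), max_eq_right (by linarith : (0 : ℝ) ≤ Y₀ + Y₁ - l),
      max_eq_right (by linarith : (0 : ℝ) ≤ Y₀ - l)]
    rcases le_total l (Y₀ - Y₁) with h' | h'
    · rw [max_eq_left (by linarith), max_eq_right (by linarith)]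
      ring
    · rw [max_eq_right (by linarith), max_eq_left (by linarith)]
      ring
  · rw [abs_of_nonneg (by linarith), max_eq_left (by linarith : Y₀ - l ≤ 0),
      max_eq_left (by linarith : Y₀ - Y₁ - l ≤ 0)]
    rcases le_total l (Y₀ + Y₁) with h' | h'
    · rw [max_eq_right (by linarith), max_eq_right (by linarith)]
      ring
    · rw [max_eq_left (by linarith), max_eq_left (by linarith)]
      ring

private lemma ker_mono (m : ℕ) : Monotone (fun y : ℝ => if (m : ℝ) ≤ Real.exp y then (1 : ℝ) else 0) := by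
  intro x y hxy
  have := Real.exp_le_exp.mpr hxy
  by_cases h : (m : ℝ) ≤ Real.exp x
  · simp [h, h.trans this]
  · by_cases h' : (m : ℝ) ≤ Real.exp y <;> simp [h, h']

private lemma ker_stepint (m : ℕ) (hm : 1 ≤ m) (p q : ℝ) :
    ∫ y in p..q, (if (m : ℝ) ≤ Real.exp y then (1 : ℝ) else 0) =
      max 0 (q - Real.log m) - max 0 (p - Real.log m) := by
  have hm0 : (0 : ℝ) < m := by exact_mod_cast hm
  refine MeasureTheory.integral_eq_of_hasDerivAt_off_countable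
    (fun y : ℝ => max 0 (y - Real.log m)) _ (s := {Real.log m}) (Set.countable_singleton _)
    (Continuous.continuousOn (by fun_prop)) ?_ (ker_mono m).intervalIntegrable
  intro x hx
  have hne : x ≠ Real.log m := fun h => hx.2 h
  rcases lt_or_gt_of_ne hne with h | h
  · have : ¬ ((m : ℝ) ≤ Real.exp x) := by
      rw [← Real.log_le_iff_le_exp hm0]
      exact not_le.mpr h
    simp only [this, if_false]
    refine (hasDerivAt_const x (0 : ℝ)).congr_of_eventuallyEq ?_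
    filter_upwards [eventually_lt_nhds h] with y hy
    exact max_eq_left (by linarith)
  · have : (m : ℝ) ≤ Real.exp x := by
      rw [← Real.log_le_iff_le_exp hm0]
      exact h.le
    simp only [this, if_true]
    refine ((hasDerivAt_id x).sub_const (Real.log m)).congr_of_eventuallyEq ?_
    filter_upwards [eventually_gt_nhds h] with y hy
    exact max_eq_right (by linarith)

/-- the step function sum -/
private noncomputable def kh (f : ℕ → ℂ) (M : ℕ) (y : ℝ) : ℂ :=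
  ∑ m ∈ Icc 1 M, (((if (m : ℝ) ≤ Real.exp y then (1 : ℝ) else 0) : ℝ) : ℂ) * f m

private lemma ker_khint (f : ℕ → ℂ) (M : ℕ) (p q : ℝ) :
    IntervalIntegrable (kh f M) MeasureTheory.volume p q := by
  unfold kh
  have : IntervalIntegrable (∑ m ∈ Icc 1 M, fun y : ℝ =>
      (((if (m : ℝ) ≤ Real.exp y then (1 : ℝ) else 0) : ℝ) : ℂ) * f m)
      MeasureTheory.volume p q := by
    refine IntervalIntegrable.sum _ fun m _ => ?_
    refine IntervalIntegrable.mul_const ?_ _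
    have h := (ker_mono m).intervalIntegrable (μ := MeasureTheory.volume) (a := p) (b := q)
    exact ⟨h.1.ofReal, h.2.ofReal⟩
  refine this.congr fun y _ => ?_
  simp [Finset.sum_apply]

private lemma ker_khval (f : ℕ → ℂ) (M : ℕ) (p q : ℝ) :
    ∫ y in p..q, kh f M y = ∑ m ∈ Icc 1 M,
      ((max 0 (q - Real.log m) - max 0 (p - Real.log m) : ℝ) : ℂ) * f m := by
  unfold kh
  rw [intervalIntegral.integral_finsetSum]
  · refine Finset.sum_congr rfl fun m hm => ?_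
    rw [intervalIntegral.integral_mul_const, intervalIntegral.integral_ofReal,
      ker_stepint m (Finset.mem_Icc.mp hm).1]
  · intro m _
    refine IntervalIntegrable.mul_const ?_ _
    have h := (ker_mono m).intervalIntegrable (μ := MeasureTheory.volume) (a := p) (b := q)
    exact ⟨h.1.ofReal, h.2.ofReal⟩

private lemma ker_sum (f : ℕ → ℂ) (Y₀ Y₁ : ℝ) (D M : ℕ) (hY : 0 < Y₁) (hD : 1 ≤ D) :
    ∑ m ∈ Icc 1 M, ((tn Y₀ Y₁ ((D * m : ℕ) : ℝ) : ℝ) : ℂ) * f m =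
      ((2 / Y₁ : ℝ) : ℂ) * ((∫ y in (Y₀ - Real.log D)..(Y₀ + Y₁ - Real.log D), kh f M y)
        - ∫ y in (Y₀ - Y₁ - Real.log D)..(Y₀ - Real.log D), kh f M y) := by
  rw [ker_khval, ker_khval, ← Finset.sum_sub_distrib, Finset.mul_sum]
  refine Finset.sum_congr rfl fun m hm => ?_
  have hm1 := (Finset.mem_Icc.mp hm).1
  have hl : Real.log ((D * m : ℕ) : ℝ) = Real.log D + Real.log m := by
    push_cast
    rw [Real.log_mul]
    · have : (0 : ℝ) < D := by exact_mod_cast hD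
      exact this.ne'
    · have : (0 : ℝ) < m := by exact_mod_cast hm1
      exact this.ne'
  unfold tn
  rw [hl, ker_tent _ _ _ hY]
  have e1 : Y₀ + Y₁ - (Real.log D + Real.log m) = Y₀ + Y₁ - Real.log D - Real.log m := by ring
  have e2 : Y₀ - (Real.log D + Real.log m) = Y₀ - Real.log D - Real.log m := by ring
  have e3 : Y₀ - Y₁ - (Real.log D + Real.log m) = Y₀ - Y₁ - Real.log D - Real.log m := by ring
  rw [e1, e2, e3]
  push_cast
  ring

private lemma ker_kh_eq (f : ℕ → ℂ) (M : ℕ) (y : ℝ) (hM : Real.exp y < M + 1) :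
    kh f M y = ∑ m ∈ Ioc 0 ⌊Real.exp y⌋₊, f m := by
  unfold kh
  have : Ioc 0 ⌊Real.exp y⌋₊ = (Icc 1 M).filter (fun m : ℕ => (m : ℝ) ≤ Real.exp y) := by
    ext m
    simp only [Finset.mem_Ioc, Finset.mem_filter, Finset.mem_Icc]
    constructor
    · rintro ⟨h1, h2⟩
      have h3 : (m : ℝ) ≤ Real.exp y := (Nat.le_floor_iff (Real.exp_pos y).le).mp h2
      refine ⟨⟨h1, ?_⟩, h3⟩
      have : (m : ℝ) < M + 1 := lt_of_le_of_lt h3 hM
      have : m < M + 1 := by exact_mod_cast this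
      omega
    · rintro ⟨⟨h1, _⟩, h3⟩
      exact ⟨h1, Nat.le_floor h3⟩
  rw [this, Finset.sum_filter]
  refine Finset.sum_congr rfl fun m _ => ?_
  split_ifs <;> simp

private lemma ker_expint (w : ℂ) (hw : w ≠ 0) (p q : ℝ) :
    ∫ y in p..q, Complex.exp (w * y) = (Complex.exp (w * q) - Complex.exp (w * p)) / w :=
  integral_exp_mul_complex hw

/-- comparison of the two integrals -/
private lemma ker_bound (h : ℝ → ℂ) (A P w : ℂ) (Z Y₁ ε : ℝ) (hw : w ≠ 0) (hY : 0 < Y₁)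
    (hi : ∀ p q, IntervalIntegrable h MeasureTheory.volume p q)
    (hε : ∀ y, Z - Y₁ ≤ y → y ≤ Z + Y₁ → ‖h y - A - P * Complex.exp (w * y)‖ ≤ ε) :
    ‖((2 / Y₁ : ℝ) : ℂ) * ((∫ y in Z..(Z + Y₁), h y) - ∫ y in (Z - Y₁)..Z, h y) -
      P * (((2 / Y₁ : ℝ) : ℂ) * ((Complex.exp (w * ((Z + Y₁ : ℝ) : ℂ)) - 2 * Complex.exp (w * (Z : ℂ)) +
        Complex.exp (w * ((Z - Y₁ : ℝ) : ℂ))) / w))‖ ≤ 4 * ε := by
  have hie : ∀ p q, IntervalIntegrable (fun y : ℝ => P * Complex.exp (w * y))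
      MeasureTheory.volume p q := fun p q => Continuous.intervalIntegrable (by fun_prop) _ _
  have hic : ∀ p q, IntervalIntegrable (fun _ : ℝ => A) MeasureTheory.volume p q :=
    fun p q => intervalIntegrable_const
  have hsplit : ∀ p q : ℝ, ∫ y in p..q, (h y - A - P * Complex.exp (w * y)) =
      (∫ y in p..q, h y) - ((q - p : ℝ) : ℂ) * A -
        P * ((Complex.exp (w * q) - Complex.exp (w * p)) / w) := by
    intro p q
    rw [intervalIntegral.integral_sub ((hi p q).sub (hic p q)) (hie p q),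
      intervalIntegral.integral_sub (hi p q) (hic p q), intervalIntegral.integral_const,
      intervalIntegral.integral_const_mul, ker_expint w hw]
    simp
  have hb : ∀ p q : ℝ, Z - Y₁ ≤ p → p ≤ q → q ≤ Z + Y₁ →
      ‖∫ y in p..q, (h y - A - P * Complex.exp (w * y))‖ ≤ ε * (q - p) := by
    intro p q h1 h2 h3
    have := intervalIntegral.norm_integral_le_of_norm_le_const (a := p) (b := q) (C := ε)
      (f := fun y : ℝ => h y - A - P * Complex.exp (w * y)) (fun y hy => by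
        rw [Set.uIoc_of_le h2] at hy
        exact hε y (by linarith [hy.1]) (by linarith [hy.2]))
    rwa [abs_of_nonneg (by linarith)] at this
  have b1 := hb Z (Z + Y₁) (by linarith) (by linarith) le_rfl
  have b2 := hb (Z - Y₁) Z le_rfl (by linarith) (by linarith)
  rw [hsplit] at b1 b2
  have e : ((2 / Y₁ : ℝ) : ℂ) * ((∫ y in Z..(Z + Y₁), h y) - ∫ y in (Z - Y₁)..Z, h y) -
      P * (((2 / Y₁ : ℝ) : ℂ) * ((Complex.exp (w * ((Z + Y₁ : ℝ) : ℂ)) - 2 * Complex.exp (w * (Z : ℂ)) +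
        Complex.exp (w * ((Z - Y₁ : ℝ) : ℂ))) / w)) =
      ((2 / Y₁ : ℝ) : ℂ) * (((∫ y in Z..(Z + Y₁), h y) - ((Z + Y₁ - Z : ℝ) : ℂ) * A -
        P * ((Complex.exp (w * ((Z + Y₁ : ℝ) : ℂ)) - Complex.exp (w * Z)) / w)) -
      ((∫ y in (Z - Y₁)..Z, h y) - ((Z - (Z - Y₁) : ℝ) : ℂ) * A -
        P * ((Complex.exp (w * Z) - Complex.exp (w * ((Z - Y₁ : ℝ) : ℂ))) / w))) := by
    push_cast
    ring
  rw [e, norm_mul]
  have hn : ‖((2 / Y₁ : ℝ) : ℂ)‖ = 2 / Y₁ := by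
    rw [Complex.norm_real, Real.norm_eq_abs, abs_of_pos (by positivity)]
  rw [hn]
  have := norm_sub_le ((∫ y in Z..(Z + Y₁), h y) - ((Z + Y₁ - Z : ℝ) : ℂ) * A -
        P * ((Complex.exp (w * ((Z + Y₁ : ℝ) : ℂ)) - Complex.exp (w * Z)) / w))
      ((∫ y in (Z - Y₁)..Z, h y) - ((Z - (Z - Y₁) : ℝ) : ℂ) * A -
        P * ((Complex.exp (w * Z) - Complex.exp (w * ((Z - Y₁ : ℝ) : ℂ))) / w))
  calc 2 / Y₁ * ‖_‖ ≤ 2 / Y₁ * (ε * (Z + Y₁ - Z) + ε * (Z - (Z - Y₁))) := by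
        refine mul_le_mul_of_nonneg_left (this.trans (add_le_add b1 b2)) (by positivity)
    _ = 4 * ε := by
        field_simp
        ring

/-- the transform of the tent in the logarithmic variable -/
private lemma ker_J1 (Y₀ Y₁ : ℝ) (hY : 0 < Y₁) (ha : 0 < Y₀ - Y₁) (s : ℂ) :
    ∫ u in Set.Ioi (1 : ℝ), ((tn Y₀ Y₁ u : ℝ) : ℂ) * (u : ℂ) ^ (-s) =
      ∫ y in (Y₀ - Y₁)..(Y₀ + Y₁),
        ((tn Y₀ Y₁ (Real.exp y) : ℝ) : ℂ) * Complex.exp ((1 - s) * y) := by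
  have hab : Y₀ - Y₁ ≤ Y₀ + Y₁ := by linarith
  have h1 : ∫ u in Set.Ioi (1 : ℝ), ((tn Y₀ Y₁ u : ℝ) : ℂ) * (u : ℂ) ^ (-s) =
      ∫ u in Set.Ioc (Real.exp (Y₀ - Y₁)) (Real.exp (Y₀ + Y₁)),
        ((tn Y₀ Y₁ u : ℝ) : ℂ) * (u : ℂ) ^ (-s) := by
    refine MeasureTheory.setIntegral_eq_of_subset_of_forall_sdiff_eq_zero measurableSet_Ioi ?_ ?_
    · intro u hu
      have : (1 : ℝ) < Real.exp (Y₀ - Y₁) := by
        rw [← Real.exp_zero]
        exact Real.exp_lt_exp.mpr ha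
      exact this.trans hu.1
    · intro u hu
      have hu1 : (1 : ℝ) < u := hu.1
      have hu0 : (0 : ℝ) < u := by linarith
      have ht : tn Y₀ Y₁ u = 0 := by
        unfold tn
        refine max_eq_left ?_
        have : Y₁ ≤ |Real.log u - Y₀| := by
          by_contra hcon
          push Not at hcon
          rw [abs_lt] at hcon
          refine hu.2 ⟨?_, ?_⟩
          · rw [← Real.lt_log_iff_exp_lt hu0]
            linarith [hcon.1]
          · rw [← Real.log_le_iff_le_exp hu0]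
            linarith [hcon.2]
        have h2 : 1 ≤ |Real.log u - Y₀| / Y₁ := by
          rw [le_div_iff₀ hY]
          linarith
        linarith
      rw [ht]
      simp
  rw [h1, ← intervalIntegral.integral_of_le (Real.exp_le_exp.mpr hab),
    ← intervalIntegral.integral_deriv_smul_comp_of_deriv_nonneg (f := Real.exp) (f' := Real.exp)
      Real.continuous_exp.continuousOn (fun x _ => Real.hasDerivAt_exp x)
      (fun x _ => (Real.exp_pos x).le)]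
  refine intervalIntegral.integral_congr fun y _ => ?_
  simp only [Function.comp_apply, Complex.real_smul]
  have h2 : ((Real.exp y : ℝ) : ℂ) ^ (-s) = Complex.exp (-s * y) := by
    rw [Complex.cpow_def_of_ne_zero (by exact_mod_cast (Real.exp_pos y).ne'),
      ← Complex.ofReal_log (Real.exp_pos y).le, Real.log_exp]
    congr 1
    ring
  rw [h2]
  have h3 : Complex.exp ((1 - s) * y) = ((Real.exp y : ℝ) : ℂ) * Complex.exp (-s * y) := by
    rw [Complex.ofReal_exp, ← Complex.exp_add]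
    congr 1
    ring
  rw [h3]
  ring

private lemma ker_J2 (Y₀ Y₁ : ℝ) (hY : 0 < Y₁) (w : ℂ) (hw : w ≠ 0) :
    ∫ y in (Y₀ - Y₁)..(Y₀ + Y₁),
        ((tn Y₀ Y₁ (Real.exp y) : ℝ) : ℂ) * Complex.exp (w * y) =
      ((2 / Y₁ : ℝ) : ℂ) * ((Complex.exp (w * ((Y₀ + Y₁ : ℝ) : ℂ)) - 2 * Complex.exp (w * (Y₀ : ℂ)) +
        Complex.exp (w * ((Y₀ - Y₁ : ℝ) : ℂ))) / w ^ 2) := by
  have hcont : Continuous (fun y : ℝ => ((tn Y₀ Y₁ (Real.exp y) : ℝ) : ℂ) * Complex.exp (w * y)) := by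
    unfold tn
    simp only [Real.log_exp]
    fun_prop
  rw [← intervalIntegral.integral_add_adjacent_intervals
    (hcont.intervalIntegrable (Y₀ - Y₁) Y₀) (hcont.intervalIntegrable Y₀ (Y₀ + Y₁))]
  have i1 : ∫ y in (Y₀ - Y₁)..Y₀, ((tn Y₀ Y₁ (Real.exp y) : ℝ) : ℂ) * Complex.exp (w * y) =
      (((2 / Y₁ : ℝ) : ℂ) * ((Y₀ : ℂ) - (Y₀ - Y₁ : ℝ)) * Complex.exp (w * Y₀) / w -
        ((2 / Y₁ : ℝ) : ℂ) * Complex.exp (w * Y₀) / w ^ 2) -
      (((2 / Y₁ : ℝ) : ℂ) * (((Y₀ - Y₁ : ℝ) : ℂ) - (Y₀ - Y₁ : ℝ)) *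
        Complex.exp (w * ((Y₀ - Y₁ : ℝ) : ℂ)) / w -
        ((2 / Y₁ : ℝ) : ℂ) * Complex.exp (w * ((Y₀ - Y₁ : ℝ) : ℂ)) / w ^ 2) := by
    refine (intervalIntegral.integral_congr (g := fun y : ℝ =>
      ((2 / Y₁ : ℝ) : ℂ) * ((y : ℂ) - (Y₀ - Y₁ : ℝ)) * Complex.exp (w * y)) ?_).trans ?_
    · intro y hy
      rw [Set.uIcc_of_le (by linarith)] at hy
      have : tn Y₀ Y₁ (Real.exp y) = 2 / Y₁ * (y - (Y₀ - Y₁)) := by
        unfold tn
        rw [Real.log_exp, abs_of_nonpos (by linarith [hy.2])]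
        rw [max_eq_right]
        · field_simp
          ring
        · have : -(y - Y₀) / Y₁ ≤ 1 := by
            rw [div_le_one hY]
            linarith [hy.1]
          linarith
      simp only
      rw [this]
      push_cast
      ring
    · refine intervalIntegral.integral_eq_sub_of_hasDerivAt (f := fun y : ℝ =>
        ((2 / Y₁ : ℝ) : ℂ) * ((y : ℂ) - (Y₀ - Y₁ : ℝ)) * Complex.exp (w * y) / w -
        ((2 / Y₁ : ℝ) : ℂ) * Complex.exp (w * y) / w ^ 2) (fun y _ => ?_)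
        (Continuous.intervalIntegrable (by fun_prop) _ _)
      have hexp : HasDerivAt (fun y : ℝ => Complex.exp (w * y)) (Complex.exp (w * y) * w) y := by
        have := (((hasDerivAt_id (y : ℂ)).const_mul w).cexp).comp_ofReal
        simpa using this
      have hid : HasDerivAt (fun y : ℝ => ((y : ℂ) - (Y₀ - Y₁ : ℝ))) 1 y := by
        have := ((hasDerivAt_id (y : ℂ)).sub_const (((Y₀ - Y₁ : ℝ) : ℂ))).comp_ofReal
        simpa using this
      have := (((hid.const_mul (((2 / Y₁ : ℝ) : ℂ))).mul hexp).div_const w).sub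
        ((hexp.const_mul (((2 / Y₁ : ℝ) : ℂ))).div_const (w ^ 2))
      refine HasDerivAt.congr_deriv this ?_
      field_simp
      ring
  have i2 : ∫ y in Y₀..(Y₀ + Y₁), ((tn Y₀ Y₁ (Real.exp y) : ℝ) : ℂ) * Complex.exp (w * y) =
      (((2 / Y₁ : ℝ) : ℂ) * ((Y₀ + Y₁ : ℝ) - ((Y₀ + Y₁ : ℝ) : ℂ)) *
        Complex.exp (w * ((Y₀ + Y₁ : ℝ) : ℂ)) / w +
        ((2 / Y₁ : ℝ) : ℂ) * Complex.exp (w * ((Y₀ + Y₁ : ℝ) : ℂ)) / w ^ 2) -
      (((2 / Y₁ : ℝ) : ℂ) * ((Y₀ + Y₁ : ℝ) - (Y₀ : ℂ)) *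
        Complex.exp (w * (Y₀ : ℂ)) / w +
        ((2 / Y₁ : ℝ) : ℂ) * Complex.exp (w * (Y₀ : ℂ)) / w ^ 2) := by
    refine (intervalIntegral.integral_congr (g := fun y : ℝ =>
      ((2 / Y₁ : ℝ) : ℂ) * ((Y₀ + Y₁ : ℝ) - (y : ℂ)) * Complex.exp (w * y)) ?_).trans ?_
    · intro y hy
      rw [Set.uIcc_of_le (by linarith)] at hy
      have : tn Y₀ Y₁ (Real.exp y) = 2 / Y₁ * (Y₀ + Y₁ - y) := by
        unfold tn
        rw [Real.log_exp, abs_of_nonneg (by linarith [hy.1])]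
        rw [max_eq_right]
        · field_simp
          ring
        · have : (y - Y₀) / Y₁ ≤ 1 := by
            rw [div_le_one hY]
            linarith [hy.2]
          linarith
      simp only
      rw [this]
      push_cast
      ring
    · refine intervalIntegral.integral_eq_sub_of_hasDerivAt (f := fun y : ℝ =>
        ((2 / Y₁ : ℝ) : ℂ) * ((Y₀ + Y₁ : ℝ) - (y : ℂ)) * Complex.exp (w * y) / w +
        ((2 / Y₁ : ℝ) : ℂ) * Complex.exp (w * y) / w ^ 2) (fun y _ => ?_)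
        (Continuous.intervalIntegrable (by fun_prop) _ _)
      have hexp : HasDerivAt (fun y : ℝ => Complex.exp (w * y)) (Complex.exp (w * y) * w) y := by
        have := (((hasDerivAt_id (y : ℂ)).const_mul w).cexp).comp_ofReal
        simpa using this
      have hid : HasDerivAt (fun y : ℝ => (((Y₀ + Y₁ : ℝ) : ℂ) - (y : ℂ))) (-1) y := by
        have := ((hasDerivAt_id (y : ℂ)).const_sub (((Y₀ + Y₁ : ℝ) : ℂ))).comp_ofReal
        simpa using this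
      have := (((hid.const_mul (((2 / Y₁ : ℝ) : ℂ))).mul hexp).div_const w).add
        ((hexp.const_mul (((2 / Y₁ : ℝ) : ℂ))).div_const (w ^ 2))
      refine HasDerivAt.congr_deriv this ?_
      field_simp
      ring
  rw [i1, i2]
  have hY' : (Y₁ : ℂ) ≠ 0 := by exact_mod_cast hY.ne'
  push_cast
  field_simp
  ring

private lemma ker_Jcont (Y₀ Y₁ : ℝ) (hY : 0 < Y₁) (ha : 0 < Y₀ - Y₁) :
    Continuous (fun s : ℂ =>
      ∫ u in Set.Ioi (1 : ℝ), ((tn Y₀ Y₁ u : ℝ) : ℂ) * (u : ℂ) ^ (-s)) := by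
  simp_rw [ker_J1 Y₀ Y₁ hY ha]
  apply intervalIntegral.continuous_parametric_intervalIntegral_of_continuous'
  unfold tn Function.uncurry
  simp only [Real.log_exp]
  fun_prop

private lemma ker_sd (θ : ℕ → ℝ) (Z n : ℕ) (hn : 1 ≤ n) (hθ : ∀ d, Z < d → θ d = 0) :
    sd θ n ^ 2 = ∑ d₁ ∈ Icc 1 Z, ∑ d₂ ∈ Icc 1 Z,
      (if Nat.lcm d₁ d₂ ∣ n then θ d₁ * θ d₂ else 0) := by
  have h1 : sd θ n = ∑ d ∈ Icc 1 Z, (if d ∣ n then θ d else 0) := by
    unfold sd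
    rw [← Finset.sum_filter]
    refine (Finset.sum_subset (s₁ := (Icc 1 Z).filter (fun d => d ∣ n)) ?_ ?_).symm
    · intro d hd
      rw [Finset.mem_filter] at hd
      rw [Nat.mem_divisors]
      exact ⟨hd.2, by omega⟩
    · intro d hd hd'
      rw [Nat.mem_divisors] at hd
      refine hθ d ?_
      by_contra hcon
      refine hd' ?_
      rw [Finset.mem_filter, Finset.mem_Icc]
      have := Nat.pos_of_dvd_of_pos hd.1 hn
      exact ⟨⟨this, by omega⟩, hd.1⟩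
  rw [h1, sq, Finset.sum_mul_sum]
  refine Finset.sum_congr rfl fun d₁ _ => Finset.sum_congr rfl fun d₂ _ => ?_
  by_cases h₁ : d₁ ∣ n
  · by_cases h₂ : d₂ ∣ n
    · simp [h₁, h₂, Nat.lcm_dvd_iff]
    · simp [h₂, Nat.lcm_dvd_iff]
  · simp [h₁, Nat.lcm_dvd_iff]

private lemma ker_mult (F : ℕ → ℂ) (D N : ℕ) (hD : 1 ≤ D) :
    ∑ n ∈ (Icc 1 N).filter (fun n => D ∣ n), F n = ∑ m ∈ Icc 1 (N / D), F (D * m) := by
  symm
  refine Finset.sum_bij (fun m _ => D * m) ?_ ?_ ?_ ?_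
  · intro m hm
    rw [Finset.mem_Icc] at hm
    rw [Finset.mem_filter, Finset.mem_Icc]
    refine ⟨⟨Nat.mul_pos hD hm.1, ?_⟩, dvd_mul_right _ _⟩
    calc D * m ≤ D * (N / D) := Nat.mul_le_mul_left _ hm.2
      _ ≤ N := Nat.mul_div_le _ _
  · intro m _ m' _ h
    exact Nat.eq_of_mul_eq_mul_left hD h
  · intro n hn
    rw [Finset.mem_filter, Finset.mem_Icc] at hn
    obtain ⟨⟨h1, h2⟩, ⟨m, rfl⟩⟩ := hn
    refine ⟨m, ?_, rfl⟩
    rw [Finset.mem_Icc]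
    refine ⟨Nat.pos_of_ne_zero (by rintro rfl; simp at h1), ?_⟩
    rw [Nat.le_div_iff_mul_le hD]
    linarith [mul_comm m D]
  · intro m _
    rfl

private lemma ker_one (κ X ε : ℝ) (q : ℕ) (ψ : DirichletCharacter ℂ q) (s : ℂ)
    (D : ℕ) (A pcc : ℂ) (hκ : 0 < κ) (hX : 1 < X) (hD : 1 ≤ D) (hDX : (D : ℝ) ≤ X ^ (2 * κ))
    (hs : s ≠ 1)
    (hb : ∀ y : ℝ, X ^ κ ≤ y → ‖DS ψ y s - A - pcc * ((y : ℂ) ^ (1 - s) / (1 - s))‖ ≤ ε) :
    ‖∑ m ∈ Icc 1 (⌊X ^ (10 * κ)⌋₊ / D), ((tk κ X ((D * m : ℕ) : ℝ) : ℝ) : ℂ) *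
        (ψ (m : ZMod q) * (m : ℂ) ^ (-s)) -
      pcc * (D : ℂ) ^ (s - 1) *
        ∫ u in Set.Ioi (1 : ℝ), ((tk κ X u : ℝ) : ℂ) * (u : ℂ) ^ (-s)‖ ≤ 4 * ε := by
  have hX0 : 0 < X := by linarith
  have hL : 0 < Real.log X := Real.log_pos hX
  have hD0 : (0 : ℝ) < D := by exact_mod_cast hD
  set L := Real.log X with hLdef
  set Y₀ := 13 / 2 * κ * L with hY₀
  set Y₁ := 3 * κ * L with hY₁
  have hκL : 0 < κ * L := mul_pos hκ hL
  have hY1 : 0 < Y₁ := by rw [hY₁]; linarith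
  set w := 1 - s with hw
  have hw0 : w ≠ 0 := by
    rw [hw, sub_ne_zero]
    exact fun h => hs h.symm
  set l := Real.log D with hl
  have hlle : l ≤ 2 * κ * L := by
    have := Real.log_le_log hD0 hDX
    rwa [Real.log_rpow hX0] at this
  set M := ⌊X ^ (10 * κ)⌋₊ / D with hM
  have hMlt : X ^ (10 * κ) / D < M + 1 := by
    rw [hM, ← Nat.floor_div_natCast]
    exact Nat.lt_floor_add_one _
  set f : ℕ → ℂ := fun m => ψ (m : ZMod q) * (m : ℂ) ^ (-s) with hf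
  have key := ker_bound (kh f M) A (pcc / w) w (Y₀ - l) Y₁ ε hw0 hY1 (ker_khint f M) (by
    intro y hy1 hy2
    have e1 : Real.exp y < M + 1 := by
      refine lt_of_le_of_lt ?_ hMlt
      have : Real.exp y ≤ Real.exp (10 * κ * L - l) := by
        refine Real.exp_le_exp.mpr (hy2.trans ?_)
        rw [hY₀, hY₁]
        nlinarith
      refine this.trans (le_of_eq ?_)
      rw [Real.exp_sub, hl, Real.exp_log hD0, Real.rpow_def_of_pos hX0]
      congr 2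
      ring
    rw [ker_kh_eq f M y e1]
    have e2 : X ^ κ ≤ Real.exp y := by
      rw [Real.rpow_def_of_pos hX0]
      refine Real.exp_le_exp.mpr ?_
      rw [← hLdef]
      rw [hY₀, hY₁] at hy1
      nlinarith
    have e3 := hb (Real.exp y) e2
    have e4 : ((Real.exp y : ℝ) : ℂ) ^ w = Complex.exp (w * y) := by
      rw [Complex.cpow_def_of_ne_zero (by exact_mod_cast (Real.exp_pos y).ne'),
        ← Complex.ofReal_log (Real.exp_pos y).le, Real.log_exp, mul_comm]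
    rw [e4] at e3
    have e5 : pcc / w * Complex.exp (w * y) = pcc * (Complex.exp (w * y) / w) := by ring
    rw [e5]
    exact e3)
  have hsum := ker_sum f Y₀ Y₁ D M hY1 hD
  have e6 : Y₀ + Y₁ - Real.log D = Y₀ - l + Y₁ := by rw [hl]; ring
  have e7 : Y₀ - Y₁ - Real.log D = Y₀ - l - Y₁ := by rw [hl]; ring
  rw [e6, e7, ← hl] at hsum
  rw [← hsum] at key
  have hJ := ker_J2 Y₀ Y₁ hY1 w hw0
  rw [← ker_J1 Y₀ Y₁ hY1 (by rw [hY₀, hY₁]; linarith) s] at hJ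
  have hDexp : (D : ℂ) ^ (s - 1) = Complex.exp (-(w * l)) := by
    rw [Complex.cpow_def_of_ne_zero (by exact_mod_cast hD0.ne'), ← Complex.ofReal_natCast,
      ← Complex.ofReal_log hD0.le, ← hl]
    congr 1
    rw [hw]
    ring
  have hE : ∀ y : ℝ, Complex.exp (w * ((y - l : ℝ) : ℂ)) =
      Complex.exp (-(w * l)) * Complex.exp (w * y) := by
    intro y
    rw [← Complex.exp_add]
    congr 1
    push_cast
    ring
  have htk : ∀ u : ℝ, tk κ X u = tn Y₀ Y₁ u := fun u => rfl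
  simp only [htk]
  rw [hJ, hDexp]
  have e8 : Y₀ - l + Y₁ = Y₀ + Y₁ - l := by ring
  have e9 : Y₀ - l - Y₁ = Y₀ - Y₁ - l := by ring
  rw [e8, e9, hE, hE, hE] at key
  refine le_trans (le_of_eq ?_) key
  congr 2
  rw [sq]
  field_simp

/-- the left hand side of the estimate as a double sum -/
private lemma ker_lhs (κ X : ℝ) (q : ℕ) (ψ : DirichletCharacter ℂ q) (θ : ℕ → ℝ) (s : ℂ)
    (hX : 1 < X) (hθ : ∀ d : ℕ, X ^ κ < d → θ d = 0) :
    ∑ n ∈ Icc 1 ⌊X ^ (10 * κ)⌋₊, ((sd θ n ^ 2 * tk κ X n : ℝ) : ℂ) * ψ (n : ZMod q) *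
        (n : ℂ) ^ (-s) =
      ∑ d₁ ∈ Icc 1 ⌊X ^ κ⌋₊, ∑ d₂ ∈ Icc 1 ⌊X ^ κ⌋₊,
        ((θ d₁ * θ d₂ : ℝ) : ℂ) * ψ ((Nat.lcm d₁ d₂ : ℕ) : ZMod q) *
          ((Nat.lcm d₁ d₂ : ℕ) : ℂ) ^ (-s) *
          ∑ m ∈ Icc 1 (⌊X ^ (10 * κ)⌋₊ / Nat.lcm d₁ d₂),
            ((tk κ X ((Nat.lcm d₁ d₂ * m : ℕ) : ℝ) : ℝ) : ℂ) *
              (ψ (m : ZMod q) * (m : ℂ) ^ (-s)) := by
  have hX0 : 0 < X := by linarith
  set N := ⌊X ^ (10 * κ)⌋₊ with hN
  set Z := ⌊X ^ κ⌋₊ with hZ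
  have hθ' : ∀ d, Z < d → θ d = 0 := fun d hd => hθ d (Nat.lt_of_floor_lt hd)
  have step1 : ∀ n ∈ Icc 1 N, ((sd θ n ^ 2 * tk κ X n : ℝ) : ℂ) * ψ (n : ZMod q) *
      (n : ℂ) ^ (-s) = ∑ d₁ ∈ Icc 1 Z, ∑ d₂ ∈ Icc 1 Z,
        (if Nat.lcm d₁ d₂ ∣ n then ((θ d₁ * θ d₂ : ℝ) : ℂ) * (((tk κ X n : ℝ) : ℂ) *
          (ψ (n : ZMod q) * (n : ℂ) ^ (-s))) else 0) := by
    intro n hn
    rw [ker_sd θ Z n (Finset.mem_Icc.mp hn).1 hθ']
    push_cast
    rw [Finset.sum_mul, Finset.sum_mul, Finset.sum_mul]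
    refine Finset.sum_congr rfl fun d₁ _ => ?_
    rw [Finset.sum_mul, Finset.sum_mul, Finset.sum_mul]
    refine Finset.sum_congr rfl fun d₂ _ => ?_
    split_ifs
    · push_cast
      ring
    · simp
  rw [Finset.sum_congr rfl step1, Finset.sum_comm]
  refine Finset.sum_congr rfl fun d₁ hd₁ => ?_
  rw [Finset.sum_comm]
  refine Finset.sum_congr rfl fun d₂ hd₂ => ?_
  have hD : 1 ≤ Nat.lcm d₁ d₂ :=
    Nat.lcm_pos (Finset.mem_Icc.mp hd₁).1 (Finset.mem_Icc.mp hd₂).1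
  rw [← Finset.sum_filter, ker_mult _ _ _ hD, Finset.mul_sum]
  refine Finset.sum_congr rfl fun m _ => ?_
  have e1 : ψ ((Nat.lcm d₁ d₂ * m : ℕ) : ZMod q) =
      ψ ((Nat.lcm d₁ d₂ : ℕ) : ZMod q) * ψ (m : ZMod q) := by
    push_cast
    rw [map_mul]
  have e2 : ((Nat.lcm d₁ d₂ * m : ℕ) : ℂ) ^ (-s) =
      ((Nat.lcm d₁ d₂ : ℕ) : ℂ) ^ (-s) * (m : ℂ) ^ (-s) := by
    push_cast
    exact Complex.natCast_mul_natCast_cpow _ _ _
  rw [e1, e2]
  ring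

private lemma ker_main (κ X c ε : ℝ) (q : ℕ) (ψ : DirichletCharacter ℂ q) (θ : ℕ → ℝ) (s : ℂ)
    (A pcc : ℂ) (hκ : 0 < κ) (hX : 1 < X) (hθ1 : ∀ d, |θ d| ≤ 1)
    (hθ : ∀ d : ℕ, X ^ κ < d → θ d = 0) (hs : s ≠ 1) (hε : 0 ≤ ε)
    (hb : ∀ y : ℝ, X ^ κ ≤ y → ‖DS ψ y s - A - pcc * ((y : ℂ) ^ (1 - s) / (1 - s))‖ ≤ ε)
    (hlcs : ∑ d₁ ∈ Icc 1 ⌊X ^ κ⌋₊, ∑ d₂ ∈ Icc 1 ⌊X ^ κ⌋₊, (Nat.lcm d₁ d₂ : ℝ) ^ (-s.re) ≤ c) :
    ‖∑ n ∈ Icc 1 ⌊X ^ (10 * κ)⌋₊, ((sd θ n ^ 2 * tk κ X n : ℝ) : ℂ) * ψ (n : ZMod q) *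
        (n : ℂ) ^ (-s) -
      pcc * (∑ d₁ ∈ Icc 1 ⌊X ^ κ⌋₊, ∑ d₂ ∈ Icc 1 ⌊X ^ κ⌋₊,
        ((θ d₁ * θ d₂ / Nat.lcm d₁ d₂ : ℝ) : ℂ) * ψ ((Nat.lcm d₁ d₂ : ℕ) : ZMod q)) *
        ∫ u in Set.Ioi (1 : ℝ), ((tk κ X u : ℝ) : ℂ) * (u : ℂ) ^ (-s)‖ ≤ c * (4 * ε) := by
  have hX0 : 0 < X := by linarith
  set J := ∫ u in Set.Ioi (1 : ℝ), ((tk κ X u : ℝ) : ℂ) * (u : ℂ) ^ (-s) with hJ
  rw [ker_lhs κ X q ψ θ s hX hθ]
  have e1 : ∀ d₁ ∈ Icc 1 ⌊X ^ κ⌋₊, ∀ d₂ ∈ Icc 1 ⌊X ^ κ⌋₊, 1 ≤ Nat.lcm d₁ d₂ ∧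
      ((Nat.lcm d₁ d₂ : ℕ) : ℝ) ≤ X ^ (2 * κ) := by
    intro d₁ h₁ d₂ h₂
    rw [Finset.mem_Icc] at h₁ h₂
    refine ⟨Nat.lcm_pos h₁.1 h₂.1, ?_⟩
    have a1 : (d₁ : ℝ) ≤ X ^ κ := (Nat.le_floor_iff (by positivity)).mp h₁.2
    have a2 : (d₂ : ℝ) ≤ X ^ κ := (Nat.le_floor_iff (by positivity)).mp h₂.2
    have a3 : Nat.lcm d₁ d₂ ≤ d₁ * d₂ := Nat.le_of_dvd (Nat.mul_pos h₁.1 h₂.1)
      (Nat.lcm_dvd (dvd_mul_right _ _) (dvd_mul_left _ _))
    calc ((Nat.lcm d₁ d₂ : ℕ) : ℝ) ≤ ((d₁ * d₂ : ℕ) : ℝ) := by exact_mod_cast a3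
      _ = (d₁ : ℝ) * d₂ := by push_cast; ring
      _ ≤ X ^ κ * X ^ κ := mul_le_mul a1 a2 (by positivity) (by positivity)
      _ = X ^ (2 * κ) := by
          rw [← Real.rpow_add hX0]
          congr 1
          ring
  have e2 : pcc * (∑ d₁ ∈ Icc 1 ⌊X ^ κ⌋₊, ∑ d₂ ∈ Icc 1 ⌊X ^ κ⌋₊,
        ((θ d₁ * θ d₂ / Nat.lcm d₁ d₂ : ℝ) : ℂ) * ψ ((Nat.lcm d₁ d₂ : ℕ) : ZMod q)) * J =
      ∑ d₁ ∈ Icc 1 ⌊X ^ κ⌋₊, ∑ d₂ ∈ Icc 1 ⌊X ^ κ⌋₊,
        ((θ d₁ * θ d₂ : ℝ) : ℂ) * ψ ((Nat.lcm d₁ d₂ : ℕ) : ZMod q) *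
          ((Nat.lcm d₁ d₂ : ℕ) : ℂ) ^ (-s) *
          (pcc * ((Nat.lcm d₁ d₂ : ℕ) : ℂ) ^ (s - 1) * J) := by
    rw [Finset.mul_sum, Finset.sum_mul]
    refine Finset.sum_congr rfl fun d₁ h₁ => ?_
    rw [Finset.mul_sum, Finset.sum_mul]
    refine Finset.sum_congr rfl fun d₂ h₂ => ?_
    have hD := (e1 d₁ h₁ d₂ h₂).1
    have hD0 : ((Nat.lcm d₁ d₂ : ℕ) : ℂ) ≠ 0 := by
      exact_mod_cast (by omega : Nat.lcm d₁ d₂ ≠ 0)
    have e3 : ((Nat.lcm d₁ d₂ : ℕ) : ℂ) ^ (-s) * ((Nat.lcm d₁ d₂ : ℕ) : ℂ) ^ (s - 1) =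
        ((Nat.lcm d₁ d₂ : ℕ) : ℂ)⁻¹ := by
      rw [← Complex.cpow_add _ _ hD0, ← Complex.cpow_neg_one]
      congr 1
      ring
    calc _ = pcc * J * ((θ d₁ * θ d₂ : ℝ) : ℂ) * ψ ((Nat.lcm d₁ d₂ : ℕ) : ZMod q) *
          ((Nat.lcm d₁ d₂ : ℕ) : ℂ)⁻¹ := by
            push_cast
            ring
      _ = _ := by
            rw [← e3]
            ring
  rw [e2, ← Finset.sum_sub_distrib]
  calc ‖∑ d₁ ∈ Icc 1 ⌊X ^ κ⌋₊, _‖ ≤ ∑ d₁ ∈ Icc 1 ⌊X ^ κ⌋₊, ∑ d₂ ∈ Icc 1 ⌊X ^ κ⌋₊,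
        (Nat.lcm d₁ d₂ : ℝ) ^ (-s.re) * (4 * ε) := by
        refine norm_sum_le_of_le _ fun d₁ h₁ => ?_
        rw [← Finset.sum_sub_distrib]
        refine norm_sum_le_of_le _ fun d₂ h₂ => ?_
        have hD := e1 d₁ h₁ d₂ h₂
        rw [← mul_sub, norm_mul, norm_mul, norm_mul]
        have n1 : ‖((θ d₁ * θ d₂ : ℝ) : ℂ)‖ ≤ 1 := by
          rw [Complex.norm_real, Real.norm_eq_abs, abs_mul]
          exact mul_le_one₀ (hθ1 _) (abs_nonneg _) (hθ1 _)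
        have n2 : ‖ψ ((Nat.lcm d₁ d₂ : ℕ) : ZMod q)‖ ≤ 1 := DirichletCharacter.norm_le_one _ _
        have n3 : ‖((Nat.lcm d₁ d₂ : ℕ) : ℂ) ^ (-s)‖ = (Nat.lcm d₁ d₂ : ℝ) ^ (-s.re) := by
          rw [Complex.norm_natCast_cpow_of_pos (by omega), Complex.neg_re]
        have n4 := ker_one κ X ε q ψ s (Nat.lcm d₁ d₂) A pcc hκ hX hD.1 hD.2 hs hb
        rw [← hJ] at n4
        rw [n3]
        refine mul_le_mul ?_ n4 (norm_nonneg _) (by positivity)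
        calc _ ≤ 1 * 1 * (Nat.lcm d₁ d₂ : ℝ) ^ (-s.re) := by
              gcongr
          _ = _ := by ring
    _ = (∑ d₁ ∈ Icc 1 ⌊X ^ κ⌋₊, ∑ d₂ ∈ Icc 1 ⌊X ^ κ⌋₊,
        (Nat.lcm d₁ d₂ : ℝ) ^ (-s.re)) * (4 * ε) := by
        rw [Finset.sum_mul]
        refine Finset.sum_congr rfl fun d₁ _ => ?_
        rw [Finset.sum_mul]
    _ ≤ c * (4 * ε) := by
        refine mul_le_mul_of_nonneg_right hlcs (by positivity)

private lemma ker_size (κ c' : ℝ) (hκ : 0 < κ) (hκ1 : κ ≤ 1 / 10) (hc : 0 < c') :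
    ∃ X0 : ℝ, 2 ≤ X0 ∧ ∀ X : ℝ, X0 ≤ X → ∀ σ : ℝ, 1 - c' / 4 ≤ σ → σ ≤ 1 →
      (X ^ κ * X ^ κ) ^ (1 - σ) * (1 + Real.log (X ^ κ)) * (1 + Real.log (X ^ κ)) *
        (1 + Real.log (min (X ^ κ) (X ^ κ))) * (4 * X ^ (-c')) ≤ X ^ (-(c' / 4)) := by
  set K : ℝ := 1 + κ * (12 / c') with hK
  have hK1 : 1 ≤ K := by
    rw [hK]
    have : 0 ≤ κ * (12 / c') := by positivity
    linarith
  refine ⟨max 2 ((4 * K ^ 3) ^ (4 / c')), le_max_left _ _, fun X hX σ hσ hσ1 => ?_⟩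
  have hX2 : 2 ≤ X := (le_max_left _ _).trans hX
  have hX0 : 0 < X := by linarith
  have hX1 : 1 ≤ X := by linarith
  have hL : 0 ≤ Real.log X := Real.log_nonneg hX1
  rw [min_self, Real.log_rpow hX0]
  have hlog : Real.log X ≤ X ^ (c' / 12) / (c' / 12) :=
    Real.log_le_rpow_div hX0.le (by positivity)
  have h1X : 1 ≤ X ^ (c' / 12) := Real.one_le_rpow hX1 (by positivity)
  have h1 : 1 + κ * Real.log X ≤ K * X ^ (c' / 12) := by
    have : κ * Real.log X ≤ κ * (X ^ (c' / 12) / (c' / 12)) :=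
      mul_le_mul_of_nonneg_left hlog hκ.le
    have e : κ * (X ^ (c' / 12) / (c' / 12)) = κ * (12 / c') * X ^ (c' / 12) := by
      field_simp
    rw [hK]
    rw [e] at this
    nlinarith
  have h2 : (X ^ κ * X ^ κ) ^ (1 - σ) ≤ X ^ (c' / 20) := by
    rw [← Real.rpow_add hX0, ← Real.rpow_mul hX0.le]
    refine Real.rpow_le_rpow_of_exponent_le hX1 ?_
    nlinarith
  have h3 : 4 * K ^ 3 ≤ X ^ (c' / 4) := by
    have h4 : (4 * K ^ 3) ^ (4 / c') ≤ X := (le_max_right _ _).trans hX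
    have h5 : ((4 * K ^ 3) ^ (4 / c')) ^ (c' / 4) ≤ X ^ (c' / 4) :=
      Real.rpow_le_rpow (by positivity) h4 (by positivity)
    rw [← Real.rpow_mul (by positivity)] at h5
    have e : 4 / c' * (c' / 4) = 1 := by field_simp
    rw [e, Real.rpow_one] at h5
    exact h5
  have hk0 : 0 ≤ 1 + κ * Real.log X := by positivity
  have h6 : (1 + κ * Real.log X) * (1 + κ * Real.log X) * (1 + κ * Real.log X) ≤
      K ^ 3 * X ^ (c' / 4) := by
    calc (1 + κ * Real.log X) * (1 + κ * Real.log X) * (1 + κ * Real.log X) =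
        (1 + κ * Real.log X) ^ 3 := by ring
      _ ≤ (K * X ^ (c' / 12)) ^ 3 := pow_le_pow_left₀ hk0 h1 3
      _ = K ^ 3 * X ^ (c' / 4) := by
          rw [mul_pow, ← Real.rpow_natCast (X ^ (c' / 12)) 3, ← Real.rpow_mul hX0.le]
          congr 2
          push_cast
          ring
  calc (X ^ κ * X ^ κ) ^ (1 - σ) * (1 + κ * Real.log X) * (1 + κ * Real.log X) *
        (1 + κ * Real.log X) * (4 * X ^ (-c'))
      = (X ^ κ * X ^ κ) ^ (1 - σ) * ((1 + κ * Real.log X) * (1 + κ * Real.log X) *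
        (1 + κ * Real.log X)) * (4 * X ^ (-c')) := by ring
    _ ≤ X ^ (c' / 20) * (K ^ 3 * X ^ (c' / 4)) * (4 * X ^ (-c')) := by
        gcongr
    _ = (4 * K ^ 3) * (X ^ (c' / 20) * X ^ (c' / 4) * X ^ (-c')) := by ring
    _ ≤ X ^ (c' / 4) * (X ^ (c' / 20) * X ^ (c' / 4) * X ^ (-c')) := by
        gcongr
    _ = X ^ (c' / 4 + (c' / 20 + c' / 4 + -c')) := by
        rw [Real.rpow_add hX0, Real.rpow_add hX0, Real.rpow_add hX0]
    _ ≤ X ^ (-(c' / 4)) := by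
        refine Real.rpow_le_rpow_of_exponent_le hX1 ?_
        linarith

/-- Module KER. -/
theorem hKer : StTr1 → StTr2 → StLcs → StKer := by
  intro h1 h2 h3 κ hκ hκ1
  obtain ⟨c1, X1, hc1, hc1', hX1, H1⟩ := h1 κ hκ (by linarith)
  obtain ⟨c2, X2, hc2, hc2', hX2, H2⟩ := h2 κ hκ (by linarith)
  set c' := min c1 c2 with hc'
  have hc'0 : 0 < c' := lt_min hc1 hc2
  have hc'1 : c' ≤ c1 := min_le_left _ _
  have hc'2 : c' ≤ c2 := min_le_right _ _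
  obtain ⟨X3, hX3, H3⟩ := ker_size κ c' hκ hκ1 hc'0
  refine ⟨c' / 4, max X3 (max X1 X2), by positivity, by linarith, hX3.trans (le_max_left _ _), ?_⟩
  intro X q _ ψ θ s hX hq hθ1 hθ hs hs1 him
  have hXX3 : X3 ≤ X := (le_max_left _ _).trans hX
  have hXX1 : X1 ≤ X := (le_max_left _ _).trans ((le_max_right _ _).trans hX)
  have hXX2 : X2 ≤ X := (le_max_right _ _).trans ((le_max_right _ _).trans hX)
  have hX2' : 2 ≤ X := hX3.trans hXX3
  have hX0 : 0 < X := by linarith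
  have hX1' : 1 ≤ X := by linarith
  have hq1 : (q : ℝ) ≤ X ^ c1 :=
    hq.trans (Real.rpow_le_rpow_of_exponent_le hX1' (by linarith))
  have hq2 : (q : ℝ) ≤ X ^ c2 :=
    hq.trans (Real.rpow_le_rpow_of_exponent_le hX1' (by linarith))
  -- the case `s ≠ 1`
  have main : ∀ s : ℂ, 1 - c' / 4 ≤ s.re → s.re ≤ 1 → |s.im| ≤ 2 * X → s ≠ 1 →
      ‖∑ n ∈ Icc 1 ⌊X ^ (10 * κ)⌋₊, ((sd θ n ^ 2 * tk κ X n : ℝ) : ℂ) * ψ (n : ZMod q) *
          (n : ℂ) ^ (-s) -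
        (pc ψ : ℂ) * (∑ d₁ ∈ Icc 1 ⌊X ^ κ⌋₊, ∑ d₂ ∈ Icc 1 ⌊X ^ κ⌋₊,
          ((θ d₁ * θ d₂ / Nat.lcm d₁ d₂ : ℝ) : ℂ) * ψ ((Nat.lcm d₁ d₂ : ℕ) : ZMod q)) *
          ∫ u in Set.Ioi (1 : ℝ), ((tk κ X u : ℝ) : ℂ) * (u : ℂ) ^ (-s)‖ ≤ X ^ (-(c' / 4)) := by
    intro s hs hs1 him hne
    have him2 : |s.im| ≤ X ^ 2 := him.trans (by nlinarith)
    have hb : ∀ y : ℝ, X ^ κ ≤ y → ‖DS ψ y s - DirichletCharacter.LFunction ψ s -
        (pc ψ : ℂ) * ((y : ℂ) ^ (1 - s) / (1 - s))‖ ≤ X ^ (-c') := by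
      intro y hy
      by_cases hψ : ψ = 1
      · have := H2 X y q s hXX2 hq2 hy hne (by linarith) (by linarith) him2
        have hpc : ((pc ψ : ℝ) : ℂ) = (q.totient : ℂ) / q := by
          unfold pc
          rw [if_pos hψ]
          push_cast
          rfl
        rw [hpc, hψ]
        exact this.trans (Real.rpow_le_rpow_of_exponent_le hX1' (by linarith))
      · have := H1 X y q ψ s hXX1 hq1 hy hψ (by linarith) (by linarith) him2
        have hpc : ((pc ψ : ℝ) : ℂ) = 0 := by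
          unfold pc
          rw [if_neg hψ]
          simp
        rw [hpc, zero_mul, sub_zero]
        exact this.trans (Real.rpow_le_rpow_of_exponent_le hX1' (by linarith))
    have hXκ : 1 ≤ X ^ κ := Real.one_le_rpow hX1' hκ.le
    have hl := h3 (X ^ κ) s.re (X ^ κ) hXκ hXκ hs1
    have := ker_main κ X _ (X ^ (-c')) q ψ θ s (DirichletCharacter.LFunction ψ s) (pc ψ : ℂ) hκ
      (by linarith) hθ1 hθ hne (by positivity) hb hl
    exact this.trans (H3 X hXX3 s.re hs hs1)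
  by_cases hne : s = 1
  · -- continuity
    have hY1 : 0 < 3 * κ * Real.log X := by
      have : 0 < Real.log X := Real.log_pos (by linarith)
      positivity
    have hY0 : 0 < 13 / 2 * κ * Real.log X - 3 * κ * Real.log X := by
      have : 0 < κ * Real.log X := mul_pos hκ (Real.log_pos (by linarith))
      linarith
    have hJc := ker_Jcont (13 / 2 * κ * Real.log X) (3 * κ * Real.log X) hY1 hY0
    have hcont : Continuous (fun s : ℂ =>
        ‖∑ n ∈ Icc 1 ⌊X ^ (10 * κ)⌋₊, ((sd θ n ^ 2 * tk κ X n : ℝ) : ℂ) * ψ (n : ZMod q) *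
          (n : ℂ) ^ (-s) -
        (pc ψ : ℂ) * (∑ d₁ ∈ Icc 1 ⌊X ^ κ⌋₊, ∑ d₂ ∈ Icc 1 ⌊X ^ κ⌋₊,
          ((θ d₁ * θ d₂ / Nat.lcm d₁ d₂ : ℝ) : ℂ) * ψ ((Nat.lcm d₁ d₂ : ℕ) : ZMod q)) *
          ∫ u in Set.Ioi (1 : ℝ), ((tk κ X u : ℝ) : ℂ) * (u : ℂ) ^ (-s)‖) := by
      refine Continuous.norm (Continuous.sub ?_ (continuous_const.mul hJc))
      refine continuous_finsetSum _ fun n hn => continuous_const.mul ?_
      have hn1 := (Finset.mem_Icc.mp hn).1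
      have hn0 : (n : ℂ) ≠ 0 := by exact_mod_cast (by omega : n ≠ 0)
      exact Continuous.const_cpow continuous_neg (Or.inl hn0)
    have hseq : Filter.Tendsto (fun k : ℕ => (1 : ℂ) - ((c' / 4 / (k + 1) : ℝ) : ℂ))
        Filter.atTop (nhds s) := by
      rw [hne]
      have : Filter.Tendsto (fun k : ℕ => (c' / 4 / (k + 1) : ℝ)) Filter.atTop (nhds 0) :=
        tendsto_const_div_atTop_nhds_zero_nat (c' / 4) |>.comp
          (Filter.tendsto_add_atTop_nat 1) |>.congr (fun k => by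
            simp)
      have h4 := (Complex.continuous_ofReal.tendsto 0).comp this
      have h5 := (tendsto_const_nhds (x := (1 : ℂ))).sub h4
      simpa using h5
    refine le_of_tendsto ((hcont.tendsto s).comp hseq) (Filter.Eventually.of_forall fun k => ?_)
    have hk : (0 : ℝ) < k + 1 := by positivity
    have hpos : 0 < c' / 4 / (k + 1) := by positivity
    have hle : c' / 4 / (k + 1) ≤ c' / 4 := div_le_self (by positivity) (by
      have : (0 : ℝ) ≤ k := Nat.cast_nonneg k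
      linarith)
    refine main _ ?_ ?_ ?_ ?_
    · simp only [Complex.sub_re, Complex.one_re, Complex.ofReal_re]
      linarith
    · simp only [Complex.sub_re, Complex.one_re, Complex.ofReal_re]
      linarith
    · simp only [Complex.sub_im, Complex.one_im, Complex.ofReal_im, sub_zero, abs_zero]
      positivity
    · intro h
      have := congrArg Complex.re h
      simp only [Complex.sub_re, Complex.one_re, Complex.ofReal_re] at this
      linarith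
  · exact main s hs hs1 him hne

end Pool.Agent.Helper74.MV
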